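import Pool.Agent.Y119.HY.GalL

/-!
# Galochkin's condition for systems with unipotent monodromy, with explicit constants
-/

set_option autoImplicit false

open PowerSeries Finset.HasAntidiagonal

namespace Pool.Agent.Y340.K

open Pool.Agent.Y113 Pool.Agent.Y113.HGG Pool.Agent.Y119.HZ
open Pool.Agent.Y119.HY (IP.mul' IP.mul_right' lin_le_pow one_le_pr choose_GP choose_den GP)

/-- degree `q s`, size and common denominator geometric with constant `C` -/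
def GPc (q : ℕ) (C : ℝ) (P : ℕ → Polynomial ℚ) : Prop :=
  1 ≤ C ∧ (∀ s, Bq (q * s) (C ^ (s + 1)) (P s)) ∧
    ∀ k, ∃ g : ℕ, 0 < g ∧ (g : ℝ) ≤ C ^ (k + 1) ∧ ∀ s ≤ k, IP g (P s)

lemma GPc.mono {q : ℕ} {C D : ℝ} {P : ℕ → Polynomial ℚ} (h : GPc q C P) (hCD : C ≤ D) : GPc q D P := by
  obtain ⟨h1, h2, h3⟩ := h
  refine ⟨h1.trans hCD, fun s => (h2 s).mono le_rfl (pow_le_pow_left₀ (by linarith) hCD _), fun k => ?_⟩
  obtain ⟨g, hg0, hg, hg'⟩ := h3 k
  exact ⟨g, hg0, hg.trans (pow_le_pow_left₀ (by linarith) hCD _), hg'⟩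

section
variable {q : ℕ} {P R : ℕ → Polynomial ℚ}

/-- Cauchy products -/
lemma GPc.cauchy {C D : ℝ} (hP : GPc q C P) (hR : GPc q D R) :
    GPc q (2 * (2 * ((q : ℝ) + 1)) * (C * D)) fun s => ∑ p ∈ antidiagonal s, P p.1 * R p.2 := by
  obtain ⟨hC, h1, h2⟩ := hP
  obtain ⟨hD, h3, h4⟩ := hR
  have hC0 : 0 < C := by linarith
  have hD0 : 0 < D := by linarith
  have hCD1 : 1 ≤ C * D := hC.trans (le_mul_of_one_le_right hC0.le hD)
  have hq : (0 : ℝ) ≤ q := by positivity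
  have hbig : C * D ≤ 2 * (2 * ((q : ℝ) + 1)) * (C * D) := by
    have : 0 ≤ C * D := by linarith
    nlinarith
  refine ⟨hCD1.trans hbig, fun s => ?_, fun k => ?_⟩
  · have hterm : ∀ p ∈ antidiagonal s, Bq (q * s) ((2 * ((q : ℝ) + 1)) ^ (s + 1) * (C * D) ^ (s + 1)) (P p.1 * R p.2) := by
      intro p hp
      rw [mem_antidiagonal] at hp
      refine ((h1 p.1).mul (h3 p.2)).mono ?_ ?_
      · rw [← mul_add, hp]
      · have e0 : ((q * p.1 : ℕ) : ℝ) + 1 ≤ (2 * ((q : ℝ) + 1)) ^ (s + 1) := by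
          refine le_trans ?_ (lin_le_pow q s)
          have : q * p.1 ≤ q * s := Nat.mul_le_mul_left _ (by omega)
          have : ((q * p.1 : ℕ) : ℝ) ≤ ((q * s : ℕ) : ℝ) := by exact_mod_cast this
          linarith
        have e1 : C ^ (p.1 + 1) ≤ C ^ (s + 1) := pow_le_pow_right₀ hC (by omega)
        have e2 : D ^ (p.2 + 1) ≤ D ^ (s + 1) := pow_le_pow_right₀ hD (by omega)
        rw [mul_pow C D]
        exact mul_le_mul e0 (mul_le_mul e1 e2 (by positivity) (by positivity)) (by positivity) (by positivity)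
    refine (Bq.sum _ hterm).mono le_rfl ?_
    rw [Finset.Nat.card_antidiagonal]
    have e5 := Pool.Agent.Y119.HY.succ_le_two_pow s
    have e6 : (0 : ℝ) ≤ (2 * ((q : ℝ) + 1)) ^ (s + 1) * (C * D) ^ (s + 1) := by positivity
    calc (((s + 1 : ℕ)) : ℝ) * ((2 * ((q : ℝ) + 1)) ^ (s + 1) * (C * D) ^ (s + 1)) ≤
          2 ^ (s + 1) * ((2 * ((q : ℝ) + 1)) ^ (s + 1) * (C * D) ^ (s + 1)) := by
            refine mul_le_mul_of_nonneg_right ?_ e6
            push_cast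
            exact e5
      _ = _ := by
          rw [mul_pow (2 * (2 * ((q : ℝ) + 1))), mul_pow 2 (2 * ((q : ℝ) + 1))]
          ring
  · obtain ⟨g, hg0, hg, hg'⟩ := h2 k
    obtain ⟨h, hh0, hh, hh'⟩ := h4 k
    refine ⟨g * h, Nat.mul_pos hg0 hh0, ?_, fun s hs => IP.sum _ fun p hp => ?_⟩
    · push_cast
      calc (g : ℝ) * h ≤ C ^ (k + 1) * D ^ (k + 1) := mul_le_mul hg hh (by positivity) (by positivity)
        _ = (C * D) ^ (k + 1) := by rw [mul_pow]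
        _ ≤ _ := pow_le_pow_left₀ (by positivity) hbig _
    · rw [mem_antidiagonal] at hp
      exact Pool.Agent.Y119.HY.IP.mul' (hg' p.1 (by omega)) (hh' p.2 (by omega))

/-- multiplication by rational numbers -/
lemma GPc.smul {C D : ℝ} {c : ℕ → ℚ} (hc : GPc 0 C fun s => Polynomial.C (c s)) (hP : GPc q D P) :
    GPc q (C * D) fun s => Polynomial.C (c s) * P s := by
  obtain ⟨hC, h1, h2⟩ := hc
  obtain ⟨hD, h3, h4⟩ := hP
  have hC0 : 0 < C := by linarith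
  have hD0 : 0 < D := by linarith
  refine ⟨hC.trans (le_mul_of_one_le_right hC0.le hD), fun s => ?_, fun k => ?_⟩
  · have h5 := (h1 s).2 0
    rw [Polynomial.coeff_C_zero] at h5
    rw [mul_pow]
    exact (h3 s).C_mul h5
  · obtain ⟨g, hg0, hg, hg'⟩ := h2 k
    obtain ⟨h, hh0, hh, hh'⟩ := h4 k
    refine ⟨g * h, Nat.mul_pos hg0 hh0, ?_, fun s hs => Pool.Agent.Y119.HY.IP.mul' (hg' s hs) (hh' s hs)⟩
    push_cast
    rw [mul_pow]
    exact mul_le_mul hg hh (by positivity) (by positivity)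

/-- powers of an integer polynomial -/
lemma GPc.pow {B : ℝ} (hB : 1 ≤ B) {T : Polynomial ℤ} (hT : Bd q B T) :
    GPc q (((q : ℝ) + 1) * B) fun s => (T.map (Int.castRingHom ℚ)) ^ s := by
  have hTB : Bq q B (T.map (Int.castRingHom ℚ)) := ⟨by
    rw [Polynomial.natDegree_map_eq_of_injective (RingHom.injective_int _)]
    exact hT.1, fun l => by
      rw [Polynomial.coeff_map]
      have h2 : (((Int.castRingHom ℚ) (T.coeff l) : ℚ) : ℝ) = ((T.coeff l : ℤ) : ℝ) := by simp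
      rw [h2]
      exact hT.2 l⟩
  have hq : (0 : ℝ) ≤ q := by positivity
  have h1 : 1 ≤ ((q : ℝ) + 1) * B := by nlinarith
  refine ⟨h1, fun s => (hTB.pow s).mono le_rfl (pow_le_pow_right₀ h1 (Nat.le_succ s)), fun k => ?_⟩
  refine ⟨1, one_pos, ?_, fun s _ => ⟨T ^ s, ?_⟩⟩
  · push_cast
    exact one_le_pow₀ h1
  · rw [Polynomial.map_pow, Nat.cast_one, map_one, one_mul]

end

/-- uniform constants for a finite family -/
lemma GPc.unif {ι : Type} [Fintype ι] {q : ℕ} {C : ℝ} (hC : 1 ≤ C) {P : ι → ℕ → Polynomial ℚ} (h : ∀ i, GPc q C (P i)) :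
    (∀ i s, Bq (q * s) ((C ^ (Fintype.card ι + 1)) ^ (s + 1)) (P i s)) ∧
      ∀ k, ∃ g : ℕ, 0 < g ∧ (g : ℝ) ≤ (C ^ (Fintype.card ι + 1)) ^ (k + 1) ∧ ∀ i, ∀ s ≤ k, IP g (P i s) := by
  classical
  have hC2 : C ≤ C ^ (Fintype.card ι + 1) := le_self_pow₀ hC (by omega)
  refine ⟨fun i s => ((h i).2.1 s).mono le_rfl (pow_le_pow_left₀ (by linarith) hC2 _), fun k => ?_⟩
  choose g hg0 hg hg' using fun i => (h i).2.2 k
  refine ⟨∏ i, g i, Finset.prod_pos fun i _ => hg0 i, ?_, fun i s hs => ?_⟩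
  · push_cast
    calc ∏ i, (g i : ℝ) ≤ ∏ _i : ι, C ^ (k + 1) := Finset.prod_le_prod (fun i _ => by positivity) fun i _ => hg i
      _ = (C ^ (Fintype.card ι)) ^ (k + 1) := by
        rw [Finset.prod_const, Finset.card_univ, ← pow_mul, ← pow_mul, mul_comm]
      _ ≤ _ := pow_le_pow_left₀ (by positivity) (pow_le_pow_right₀ hC (by omega)) _
  · rw [← Finset.mul_prod_erase _ _ (Finset.mem_univ i)]
    exact Pool.Agent.Y119.HY.IP.mul_right' (hg' i s hs) _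

/-- uniform constants for finitely many power series -/
lemma SDp.unif {ι : Type} [Fintype ι] {C : ℝ} (hC : 1 ≤ C) {y : ι → ℚ⟦X⟧} (h : ∀ i, SDp C (y i)) :
    (∀ i m, |((coeff m (y i) : ℚ) : ℝ)| ≤ (C ^ (Fintype.card ι + 1)) ^ (m + 1)) ∧
    ∀ m, ∃ d : ℕ, 0 < d ∧ (d : ℝ) ≤ (C ^ (Fintype.card ι + 1)) ^ (m + 1) ∧ ∀ i, IS m d (y i) := by
  classical
  have hC2 : C ≤ C ^ (Fintype.card ι + 1) := le_self_pow₀ hC (by omega)
  refine ⟨fun i m => ((h i).1 m).trans (pow_le_pow_left₀ (by positivity) hC2 _), fun m => ?_⟩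
  choose d hd0 hd hd' using fun i => (h i).2 m
  refine ⟨∏ i, d i, Finset.prod_pos fun i _ => hd0 i, ?_, fun i j hj => ?_⟩
  · push_cast
    calc ∏ i, (d i : ℝ) ≤ ∏ _i : ι, C ^ (m + 1) := Finset.prod_le_prod (fun i _ => by positivity) fun i _ => hd i
      _ = (C ^ (Fintype.card ι)) ^ (m + 1) := by
        rw [Finset.prod_const, Finset.card_univ, ← pow_mul, ← pow_mul, mul_comm]
      _ ≤ _ := pow_le_pow_left₀ (by positivity) (pow_le_pow_right₀ hC (by omega)) _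
  · obtain ⟨a, ha⟩ := hd' i j hj
    refine ⟨(∏ i ∈ Finset.univ.erase i, d i : ℕ) * a, ?_⟩
    rw [← Finset.mul_prod_erase _ _ (Finset.mem_univ i)]
    push_cast
    rw [← ha]
    ring

/-- G-systems -/
theorem gsys_of_GPc {ι : Type} [Fintype ι] {q : ℕ} {B C₂ : ℝ} (hB : 1 ≤ B) (hC₂0 : 1 ≤ C₂) {T : Polynomial ℤ} {y : ι → ℚ⟦X⟧}
    (hT : Bd q B T) (hy : ∀ i, SDp B (y i)) (P : ι → ι → ℕ → Polynomial ℚ) (hP : ∀ i j, GPc q C₂ (P i j))
    (h : ∀ s i, ps T ^ s * hd s (y i) = ∑ j, ((P i j s : Polynomial ℚ) : ℚ⟦X⟧) * y j) :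
    GSys q (B ^ (Fintype.card ι + 1) * (C₂ ^ (Fintype.card (ι × ι) + 1) * C₂ ^ (Fintype.card (ι × ι) + 1)) * B) T y := by
  classical
  obtain ⟨hs, hden⟩ := SDp.unif hB hy
  obtain ⟨hb, hip⟩ := GPc.unif hC₂0 (P := fun p : ι × ι => P p.1 p.2) fun p => hP p.1 p.2
  set C₁ := B ^ (Fintype.card ι + 1) with hC₁d
  have hC₁ : 1 ≤ C₁ := one_le_pow₀ hB
  set C₂' := C₂ ^ (Fintype.card (ι × ι) + 1) with hC₂d
  have hC₂ : 1 ≤ C₂' := one_le_pow₀ hC₂0
  set C := C₁ * (C₂' * C₂') * B with hC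
  have h22 : 1 ≤ C₂' * C₂' := by nlinarith
  have e12 : C₁ ≤ C₁ * (C₂' * C₂') := le_mul_of_one_le_right (by linarith) h22
  have e1 : C₁ ≤ C := e12.trans (le_mul_of_one_le_right (by linarith) hB)
  have e2 : C₂' * C₂' ≤ C := (le_mul_of_one_le_left (by linarith) hC₁).trans (le_mul_of_one_le_right (by nlinarith) hB)
  have e3 : B ≤ C := le_mul_of_one_le_left (by linarith) (by nlinarith)
  have e22 : C₂' ≤ C := le_trans (by nlinarith) e2
  refine ⟨hC₁.trans e1, hT.1, fun l => (hT.2 l).trans e3, fun i m => (hs i m).trans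
    (pow_le_pow_left₀ (by linarith) e1 _), fun m => ?_, fun k => ?_⟩
  · obtain ⟨d, hd0, hd, hd'⟩ := hden m
    exact ⟨d, hd0, hd.trans (pow_le_pow_left₀ (by linarith) e1 _), fun i j hj => hd' i j hj⟩
  · obtain ⟨g, hg0, hg, hg'⟩ := hip k
    refine ⟨g, hg0, hg.trans (pow_le_pow_left₀ (by linarith) e22 _), fun s hs => ?_⟩
    choose G hG1 hG2 hG3 using fun i j => (hg' (i, j) s hs).lift (hb (i, j) s)
    refine ⟨G, hG2, fun i j l => (hG3 i j l).trans ?_, fun i => ?_⟩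
    · calc (g : ℝ) * C₂' ^ (s + 1) ≤ C₂' ^ (k + 1) * C₂' ^ (k + 1) :=
            mul_le_mul hg (pow_le_pow_right₀ hC₂ (by omega)) (by positivity) (by positivity)
        _ = (C₂' * C₂') ^ (k + 1) := by rw [mul_pow]
        _ ≤ _ := pow_le_pow_left₀ (by positivity) e2 _
    · rw [h s i, Finset.mul_sum]
      refine Finset.sum_congr rfl fun j _ => ?_
      rw [ps_eq, hG1 i j, Polynomial.coe_mul, Polynomial.coe_C]
      simp only [map_natCast]
      ring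

section
variable {n : ℕ} {N : Matrix (Fin n) (Fin n) ℚ}

lemma ah_GPc (hN : N ^ n = 0) : ∃ D : ℕ, 0 < D ∧ ∀ (H W : Matrix (Fin n) (Fin n) ℚ⟦X⟧) (T₁ : Polynomial ℤ)
    (A : Fin n → Fin n → Polynomial ℤ) (q : ℕ) (B : ℝ), 1 ≤ B → H * W = 1 →
    (∀ i j, ps T₁ * (X * d⁄dX ℚ (H i j) + ∑ k, H i k * C (N k j)) = ∑ k, ps (A i k) * H k j) →
    (∀ i j, SDp B (H i j)) → (∀ i j, SDp B (W i j)) → Bd q B (Polynomial.X * T₁) →
    (∀ i j, Bd q B (A i j)) → ∀ i k : Fin n,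
    GPc q ((cc n q * B) * (((B ^ (Fintype.card (Fin n × Fin n) + 1)) ^ (q + 1)) * (D * (2 ^ 8) ^ n) *
      ((B ^ (Fintype.card (Fin n × Fin n) + 1)) ^ (q + 1))))
      fun s => ah (Polynomial.X * T₁) (fun a b => A b a) s i k := by
  obtain ⟨D, hD0, hD⟩ := choose_den hN
  refine ⟨D, hD0, ?_⟩
  intro H W T₁ A q B hB hHW hode hH hW hT hA i k
  have hsize := ah_size (T := Polynomial.X * T₁) (A := fun a b => A b a) hB hT (fun i j => hA j i)
  obtain ⟨-, hHd⟩ := SDp.unif hB (y := fun p : Fin n × Fin n => H p.1 p.2) fun p => hH p.1 p.2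
  obtain ⟨-, hWd⟩ := SDp.unif hB (y := fun p : Fin n × Fin n => W p.1 p.2) fun p => hW p.1 p.2
  set CH : ℝ := B ^ (Fintype.card (Fin n × Fin n) + 1) with hCHd
  have hCH : 1 ≤ CH := one_le_pow₀ hB
  have hcc := one_le_cc n q
  have hCC : 1 ≤ (cc n q : ℝ) * B := by nlinarith
  have hD1 : (1 : ℝ) ≤ D := by exact_mod_cast hD0
  set G : ℝ := CH ^ (q + 1) * (D * (2 ^ 8) ^ n) * CH ^ (q + 1) with hG
  have h2n : (1 : ℝ) ≤ (2 ^ 8) ^ n := one_le_pow₀ (by norm_num)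
  have hHq : 1 ≤ CH ^ (q + 1) := one_le_pow₀ hCH
  have hG1 : 1 ≤ G := one_le_mul_of_one_le_of_one_le (one_le_mul_of_one_le_of_one_le hHq
    (one_le_mul_of_one_le_of_one_le hD1 h2n)) hHq
  refine ⟨one_le_mul_of_one_le_of_one_le hCC hG1, fun s => ?_, fun K => ?_⟩
  · refine (hsize s i k).mono le_rfl ?_
    calc ((cc n q : ℝ) * B) ^ s ≤ ((cc n q : ℝ) * B) ^ (s + 1) := pow_le_pow_right₀ hCC (Nat.le_succ s)
      _ ≤ _ := pow_le_pow_left₀ (by linarith) (le_mul_of_one_le_right (by linarith) hG1) _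
  · obtain ⟨dH, hdH0, hdH, hdH'⟩ := hHd (q * K)
    obtain ⟨dW, hdW0, hdW, hdW'⟩ := hWd (q * K)
    refine ⟨dH * (D * (Nat.lcmUpto K) ^ n) * dW, ?_, ?_, fun s hs => ?_⟩
    · have := Nat.lcmUpto_pos K
      positivity
    · push_cast
      have e1 : (dH : ℝ) ≤ (CH ^ (q + 1)) ^ (K + 1) := by
        rw [← pow_mul]
        exact hdH.trans (pow_le_pow_right₀ hCH (by nlinarith))
      have e2 : (dW : ℝ) ≤ (CH ^ (q + 1)) ^ (K + 1) := by
        rw [← pow_mul]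
        exact hdW.trans (pow_le_pow_right₀ hCH (by nlinarith))
      have e3 : (D : ℝ) * ((Nat.lcmUpto K : ℕ) : ℝ) ^ n ≤ (D * (2 ^ 8) ^ n) ^ (K + 1) := by
        rw [mul_pow]
        refine mul_le_mul (le_self_pow₀ hD1 (by omega)) ?_ (by positivity) (by positivity)
        calc ((Nat.lcmUpto K : ℕ) : ℝ) ^ n ≤ ((2 ^ 8) ^ K) ^ n := pow_le_pow_left₀ (by positivity) (lcm_bound K) _
          _ ≤ ((2 ^ 8) ^ n) ^ (K + 1) := by
            have hB : (1 : ℝ) ≤ 2 ^ 8 := one_le_pow₀ (by norm_num)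
            generalize ((2 : ℝ) ^ 8) = B at hB ⊢
            rw [← pow_mul, ← pow_mul]
            exact pow_le_pow_right₀ hB (by nlinarith)
      calc (dH : ℝ) * (D * ((Nat.lcmUpto K : ℕ) : ℝ) ^ n) * dW ≤
            (CH ^ (q + 1)) ^ (K + 1) * (D * (2 ^ 8) ^ n) ^ (K + 1) * (CH ^ (q + 1)) ^ (K + 1) :=
              mul_le_mul (mul_le_mul e1 e3 (by positivity) (by positivity)) e2 (by positivity) (by positivity)
        _ = G ^ (K + 1) := by rw [hG, mul_pow _ (CH ^ (q + 1)), mul_pow (CH ^ (q + 1))]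
        _ ≤ _ := pow_le_pow_left₀ (by linarith) (le_mul_of_one_le_left (by linarith) hCC) _
    · have key : ((ah (Polynomial.X * T₁) (fun a b => A b a) s i k : Polynomial ℚ) : ℚ⟦X⟧) =
          ∑ j, (ps T₁ ^ s * YY H N s i j) * W j k := by
        simp only [YY_ah hode, Finset.sum_mul]
        rw [Finset.sum_comm]
        have h1 : ∀ l, ∑ j, (((ah (Polynomial.X * T₁) (fun a b => A b a) s i l : Polynomial ℚ) : ℚ⟦X⟧) * H l j) * W j k =
            ((ah (Polynomial.X * T₁) (fun a b => A b a) s i l : Polynomial ℚ) : ℚ⟦X⟧) * (if l = k then 1 else 0) := by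
          intro l
          rw [← Matrix.one_apply, ← hHW, Matrix.mul_apply, Finset.mul_sum]
          exact Finset.sum_congr rfl fun j _ => by ring
        simp only [h1]
        simp
      have hIS : IS (q * K) (dH * (D * (Nat.lcmUpto K) ^ n) * dW)
          ((ah (Polynomial.X * T₁) (fun a b => A b a) s i k : Polynomial ℚ) : ℚ⟦X⟧) := by
        rw [key]
        refine IS.sum _ fun j _ => ?_
        have h1 := (IS.ps_pow (q * K) T₁ s).mul (YY_IS (N := N) (fun i j => hdH' (i, j)) hD hs i j)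
        rw [one_mul] at h1
        exact h1.mul (hdW' (j, k))
      refine IP.of_coeff fun m => ?_
      by_cases hm : m ≤ q * s
      · obtain ⟨a, ha⟩ := hIS m (hm.trans (Nat.mul_le_mul_left q hs))
        exact ⟨a, by rw [← ha, Polynomial.coeff_coe]⟩
      · refine ⟨0, ?_⟩
        rw [Polynomial.coeff_eq_zero_of_natDegree_lt (lt_of_le_of_lt (hsize s i k).1 (by omega))]
        simp

/-- **G-systems with explicit constants.** -/
theorem gsysLc (q : ℕ) (hN : N ^ n = 0) : ∃ (K : ℝ) (e : ℕ), 1 ≤ K ∧ ∀ (H W : Matrix (Fin n) (Fin n) ℚ⟦X⟧)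
    (T₁ : Polynomial ℤ) (A : Fin n → Fin n → Polynomial ℤ) (B : ℝ), 1 ≤ B → H * W = 1 →
    (∀ i j, ps T₁ * (X * d⁄dX ℚ (H i j) + ∑ k, H i k * C (N k j)) = ∑ k, ps (A i k) * H k j) →
    (∀ i j, SDp B (H i j)) → (∀ i j, SDp B (W i j)) → Bd q B T₁ → Bd q B (Polynomial.X * T₁) →
    (∀ i j, Bd q B (A i j)) →
    GSys q (K * B ^ e) (Polynomial.X * T₁) (fun p : Fin n × Fin n => H p.1 p.2) := by
  classical
  obtain ⟨D, hD0, hah⟩ := ah_GPc hN
  -- the constant of the binomial coefficients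
  have hch : ∃ C₀ : ℝ, 1 ≤ C₀ ∧ ∀ i j, GPc 0 C₀ fun s => Polynomial.C (Ring.choose (-N) s i j) := by
    choose c hc1 hc2 hc3 using fun p : Fin n × Fin n => choose_GP hN p.1 p.2
    have hprod : ∀ p, c p ≤ ∏ j, c j := by
      intro i
      rw [← Finset.mul_prod_erase _ _ (Finset.mem_univ i)]
      exact le_mul_of_one_le_right (by linarith [hc1 i]) (one_le_pr _ fun j => hc1 j)
    exact ⟨∏ p, c p, one_le_pr _ fun j => hc1 j, fun i j =>
      GPc.mono ⟨hc1 (i, j), hc2 (i, j), hc3 (i, j)⟩ (hprod (i, j))⟩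
  obtain ⟨C₀, hC₀, hch⟩ := hch
  set M : ℕ := Fintype.card (Fin n × Fin n) + 1 with hM
  set M2 : ℕ := Fintype.card ((Fin n × Fin n) × (Fin n × Fin n)) + 1 with hM2
  have hD1 : (1 : ℝ) ≤ D := by exact_mod_cast hD0
  have hcc := one_le_cc n q
  have hq : (0 : ℝ) ≤ q := by positivity
  set K₁ : ℝ := cc n q * (D * (2 ^ 8) ^ n) with hK₁
  have hK₁1 : 1 ≤ K₁ := one_le_mul_of_one_le_of_one_le hcc (one_le_mul_of_one_le_of_one_le hD1 (one_le_pow₀ (by norm_num)))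
  set K₂ : ℝ := 2 * (2 * ((q : ℝ) + 1)) * (K₁ * (C₀ * ((q : ℝ) + 1))) with hK₂
  have hq1 : (1 : ℝ) ≤ (q : ℝ) + 1 := by linarith
  have hK₂1 : 1 ≤ K₂ := one_le_mul_of_one_le_of_one_le (by linarith)
    (one_le_mul_of_one_le_of_one_le hK₁1 (one_le_mul_of_one_le_of_one_le hC₀ hq1))
  set e₂ : ℕ := 1 + M * (q + 1) + M * (q + 1) + 1 with he₂
  refine ⟨K₂ ^ M2 * K₂ ^ M2, M + (e₂ * M2 + e₂ * M2) + 1, one_le_mul_of_one_le_of_one_le (one_le_pow₀ hK₂1)
    (one_le_pow₀ hK₂1), ?_⟩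
  intro H W T₁ A B hB hHW hode hH hW hT1 hT hA
  have hPP : ∀ a b, GPc q (K₂ * B ^ e₂) (PP T₁ A N a b) := by
    intro a b
    have h1 := hah H W T₁ A q B hB hHW hode hH hW hT hA a.1 b.1
    have h2 : GPc q (C₀ * (((q : ℝ) + 1) * B))
        (fun s => Polynomial.C (Ring.choose (-N) s b.2 a.2) * (T₁.map (Int.castRingHom ℚ)) ^ s) :=
      GPc.smul (c := fun s => Ring.choose (-N) s b.2 a.2) (hch b.2 a.2) (GPc.pow hB hT1)
    have h3 := GPc.cauchy (P := fun s => ah (Polynomial.X * T₁) (fun a b => A b a) s a.1 b.1)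
      (R := fun s => Polynomial.C (Ring.choose (-N) s b.2 a.2) * (T₁.map (Int.castRingHom ℚ)) ^ s) h1 h2
    refine GPc.mono h3 (le_of_eq ?_)
    rw [hK₂, hK₁, he₂]
    rw [← pow_mul]
    ring
  have hKB : 1 ≤ K₂ * B ^ e₂ := one_le_mul_of_one_le_of_one_le hK₂1 (one_le_pow₀ hB)
  have h4 := gsys_of_GPc hB hKB hT (fun p : Fin n × Fin n => hH p.1 p.2) (PP T₁ A N) hPP fun s a => hd_PP hode s a
  refine h4.mono le_rfl (le_of_eq ?_)
  rw [← hM, ← hM2, mul_pow, ← pow_mul]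
  ring

end

end Pool.Agent.Y340.K
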