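import Pool.Agent.Y120.K.Defs2
import Pool.Agent.Y340.K.GuCore

/-!
# Project JK, job K-GU: the uniform version of `gsysL`
-/

set_option autoImplicit false

open PowerSeries Pool.Agent.Y113

namespace Pool.Agent.Y340.K

theorem t_gu : Pool.Agent.Y120.K.T_GU := by
  intro n q N H W T₁ A hN hHW hode hH hW hbd
  obtain ⟨K, e, hK, hmain⟩ := gsysLc (N := N) q hN
  choose EH hEH using hH
  choose EW hEW using hW
  obtain ⟨E0, hE0⟩ := hbd
  obtain ⟨E, hE⟩ : ∃ E : ℕ, E = ∑ p : Fin n × Fin n, EH p.1 p.2 + ∑ p : Fin n × Fin n, EW p.1 p.2 + E0 := ⟨_, rfl⟩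
  have hEH' : ∀ i j, EH i j ≤ E := fun i j => by
    have h1 := Finset.single_le_sum (f := fun p : Fin n × Fin n => EH p.1 p.2) (fun _ _ => Nat.zero_le _)
      (Finset.mem_univ (i, j))
    simp only at h1
    omega
  have hEW' : ∀ i j, EW i j ≤ E := fun i j => by
    have h1 := Finset.single_le_sum (f := fun p : Fin n × Fin n => EW p.1 p.2) (fun _ _ => Nat.zero_le _)
      (Finset.mem_univ (i, j))
    simp only at h1
    omega
  have hE0' : E0 ≤ E := by omega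
  obtain ⟨m, hm⟩ := pow_unbounded_of_one_lt K (one_lt_two : (1 : ℝ) < 2)
  refine ⟨q, m + E * e, fun g => ?_⟩
  have hg0 : (0 : ℝ) ≤ g := Nat.cast_nonneg g
  have hg : (1 : ℝ) ≤ (g : ℝ) + 2 := by linarith
  have hpow : ∀ a, a ≤ E → ((g : ℝ) + 2) ^ a ≤ ((g : ℝ) + 2) ^ E := fun a ha => pow_le_pow_right₀ hg ha
  have h1 := hmain (H g) (W g) (T₁ g) (A g) (((g : ℝ) + 2) ^ E) (one_le_pow₀ hg) (hHW g) (hode g)
    (fun i j => Pool.Agent.Y113.SDp.mono (A := ((g : ℝ) + 2) ^ EH i j) ⟨(hEH i j g).1, (hEH i j g).2⟩ (hpow _ (hEH' i j)))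
    (fun i j => Pool.Agent.Y113.SDp.mono (A := ((g : ℝ) + 2) ^ EW i j) ⟨(hEW i j g).1, (hEW i j g).2⟩ (hpow _ (hEW' i j)))
    ((hE0 g).1.mono le_rfl (hpow _ hE0')) ((hE0 g).2.1.mono le_rfl (hpow _ hE0'))
    (fun i j => ((hE0 g).2.2 i j).mono le_rfl (hpow _ hE0'))
  refine h1.mono le_rfl ?_
  rw [pow_add, pow_mul]
  refine mul_le_mul_of_nonneg_right ?_ (by positivity)
  exact hm.le.trans (pow_le_pow_left₀ (by norm_num) (by linarith) m)

end Pool.Agent.Y340.K
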